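import Pool.Agent.Lib.MP_80d0cf_nt.Up.WAll

/-! An explicit power saving over the bound of Heath-Brown for the moments of order between
4 and 12. -/

theorem Pool.Agent.Results.MP_80d0cf_nt.MomentUpperBound.result (A : ℝ) (h4 : 4 ≤ A)
    (h12 : A ≤ 12) (ε : ℝ) (hε : 0 < ε) :
    ∃ C : ℝ, ∀ T : ℝ, 1 ≤ T →
      T⁻¹ * ∫ t in (0 : ℝ)..T, ‖riemannZeta (1 / 2 + t * Complex.I)‖ ^ A ≤
        C * T ^ (max (5 * (A - 4) / 42) ((3 * A - 13) / 23) + ε) := by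
  obtain ⟨C, h⟩ := Pool.Agent.Lib.MP_80d0cf_nt.Up.explicit3 h4 h12 hε
  refine ⟨C, fun T hT => ?_⟩
  have hT0 : 0 < T := by linarith
  rw [inv_mul_le_iff₀ hT0]
  refine (h T hT).trans (le_of_eq ?_)
  rw [show max ((22 + 5 * A) / 42) ((10 + 3 * A) / 23) + ε =
      1 + (max (5 * (A - 4) / 42) ((3 * A - 13) / 23) + ε) by
    rw [← add_assoc, ← max_add_add_left]; congr 2 <;> ring, Real.rpow_add hT0, Real.rpow_one]
  ring
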