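import Pool.Agent.Lib.MP_80d0cf_nt.Up.YAll

/-! A power saving over the bound of Heath-Brown for the twelfth moment. -/

theorem Pool.Agent.Results.MP_80d0cf_nt.TwelfthMoment.result :
    ∃ δ C : ℝ, 0 < δ ∧ ∀ T : ℝ, 1 ≤ T →
      T⁻¹ * ∫ t in (0 : ℝ)..T, ‖riemannZeta (1 / 2 + t * Complex.I)‖ ^ 12 ≤ C * T ^ (1 - δ) := by
  obtain ⟨δ, C, hδ, h⟩ := Pool.Agent.Lib.MP_80d0cf_nt.Up.twelfth
  refine ⟨δ, C, hδ, fun T hT => ?_⟩
  have hT0 : 0 < T := by linarith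
  rw [inv_mul_le_iff₀ hT0]
  have h1 := h T hT
  simp only [Real.rpow_ofNat] at h1
  refine h1.trans (le_of_eq ?_)
  rw [show 2 - δ = 1 + (1 - δ) by ring, Real.rpow_add hT0, Real.rpow_one]
  ring
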